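import Pool.Agent.Helper24.AB.Defs

/-! # Project AB, module NT: numbers, the property NR (PAPER.md, Sections 0 and 7).

Every `def S_XXX : Prop` is a packet. -/

open MeasureTheory Set Filter Topology
open scoped ContDiff

noncomputable section

namespace Pool.Agent.Helper24.AB

/-- (NUM) Elementary facts on `φ, λ, κ, α, α'`.
Proof. `√5² = 5`.  `φ'=1-φ=-1/φ`, `λ=φ²=φ+1`, `λ⁻¹=φ'²=(3-√5)/2`. `log λ ∈ (0.9624, 0.9625)`: only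
`κ² < 0.0236`, i.e. `log λ < 2π·0.15362`, is needed: `λ < 2.6181 ≤ exp(0.965)` (`exp(0.965) ≥` its Taylor polynomial of degree 6, `2π·0.15362 >
0.9652`), and `0.15 < κ`: `exp(0.9425)<2.6180`.  `αα' = n²+mn-m²` is an integer, nonzero since `√5` is irrational
(`4(n²+mn-m²) = (2n+m)²-5m²`). -/
def S_NUM : Prop :=
  ph ^ 2 = ph + 1 ∧ ph' ^ 2 = ph' + 1 ∧ ph * ph' = -1 ∧ ph + ph' = 1 ∧ ph - ph' = Real.sqrt 5 ∧
  lam = ph ^ 2 ∧ lam⁻¹ = ph' ^ 2 ∧ lam + lam⁻¹ = 3 ∧ lam ^ 2 = 3 * lam - 1 ∧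
  2.618 < lam ∧ lam < 2.6181 ∧ 1.618 < ph ∧ ph < 1.6181 ∧ -0.6181 < ph' ∧ ph' < -0.618 ∧
  0.15 < kap ∧ kap < 0.1537 ∧ kap ^ 2 < 0.0236 ∧ Real.exp (kap * (2 * Real.pi)) = lam ∧
  (∀ J, alp (Jn J) = lam * alp J) ∧ (∀ J, alp' (Jn J) = lam⁻¹ * alp' J) ∧
  (∀ J, alp J * alp' J = ((J 1 ^ 2 + J 0 * J 1 - J 0 ^ 2 : ℤ) : ℝ)) ∧
  (∀ m n : ℤ, (m ≠ 0 ∨ n ≠ 0) → 1 ≤ |(m * ph + n) * (m * ph' + n)|) ∧
  (∀ m n : ℤ, |(m : ℝ)| ≤ |m * ph + n| + |m * ph' + n| ∧ |(n : ℝ)| ≤ |m * ph + n| + |m * ph' + n|) ∧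
  (∀ J : Fin 3 → ℤ, (J 0 ≠ 0 ∨ J 1 ≠ 0) → alp J ≠ 0 ∧ alp' J ≠ 0 ∧ 1 ≤ |alp J * alp' J|)

/-- `n_k = round(xλ^k)` -/
def nk (x : ℝ) (k : ℕ) : ℤ := round (x * lam ^ k)
/-- `d_k = n_{k+2} - 3n_{k+1} + n_k` -/
def dk (x : ℝ) (k : ℕ) : ℤ := nk x (k + 2) - 3 * nk x (k + 1) + nk x k

/-- (REC) The three term recurrence. Uses NUM (`λ² = 3λ - 1`).
Proof. With `e_k = xλ^k - n_k`, `|e_k| = dZ(xλ^k) ≤ 1/2`: `d_k = -(e_{k+2} - 3e_{k+1} + e_k)`, `|d_k| ≤ 5/2`; if the three are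
`< 1/10`: `|d_k| < 1/2`. -/
def S_REC : Prop := ∀ (x : ℝ) (k : ℕ), |dk x k| ≤ 2 ∧
  (dZ (x * lam ^ k) < 1 / 10 → dZ (x * lam ^ (k + 1)) < 1 / 10 → dZ (x * lam ^ (k + 2)) < 1 / 10 →
    dk x k = 0)

/-- (CNT) Few sequences with few nonzero entries.
Proof. `∑_d (1/40)^{#{i : d i ≠ 0}} = ∏_i ∑_{c ∈ Fin 5} (1/40)^{[c≠0]} = (1 + 4/40)^K` (`Finset.prod_univ_sum`/`Finset.sum_prod_piFinset`), and every
counted `d` contributes `≥ 40^{-M}`. -/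
def S_CNT : Prop := ∀ K M : ℕ,
  ((Finset.univ.filter fun d : Fin K → Fin 5 =>
    (Finset.univ.filter fun i => d i ≠ 0).card ≤ M).card : ℝ) ≤ (11 / 10) ^ K * 40 ^ M

/-- (MEAS) The measure of the bad set. Uses NUM, REC, CNT.
Proof. `K ≤ 2`: trivial (`2X ≤ 25(X+1)²`).  `K ≥ 3`: let `x` be in the set. The number of `k<K` with `dZ(xλ^k) ≥ 1/10` is `≤ K/100`, each of these
indices spoils at most three of the `d_k`, `k < K-2`, so at most `M = ⌊3K/100⌋` of `d_0,…,d_{K-3}` are `≠ 0` (REC).  `n_0,n_1,d_0,…,d_{K-3}`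
determine `n_{K-1}` (recurrence), and `|xλ^{K-1} - n_{K-1}| ≤ 1/2`: `x` is in an interval of length `λ^{1-K}`.
The number of possible `(n_0,n_1)` is at most `(2X+2)(2λX+2)` and of `(d_k)` at most `(11/10)^K 40^M` (CNT, `d_k+2 ∈ Fin 5` or any
bijection of `{-2..2}` with `Fin 5` sending `0` to `0`).  The measure is
`≤ 4λ(X+1)²·(11/10)^K·40^{3K/100}·λ·λ^{-K} ≤ 4λ²(X+1)²·2^{-K}`, because `(11/10)·40^{3/100} ≤ λ/2`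
(`(1.1)^{100}·40³ ≤ 8.9·10^8 ≤ 1.3^{100}`). -/
def S_MEAS : Prop := ∀ (X : ℝ) (K : ℕ), 0 ≤ X →
  volume {x : ℝ | |x| ≤ X ∧
    100 * ((Finset.range K).filter fun k => 1 / 10 ≤ dZ (x * lam ^ k)).card ≤ K} ≤
    ENNReal.ofReal (100 * (X + 1) ^ 2 * (1 / 2) ^ K)

/-- (NRX) Numbers with the property NR exist, arbitrarily small. Uses NUM, MEAS.
Proof. For `(m,n) ≠ 0` put `α = mφ+n`, `α' = mφ'+n`, `T = 2+|α|+|α'|`, and for `K ≥ 20 log T` let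
`E = {ε ∈ [0,1] : 100·#{k<K : dZ(αλ^kε) ≥ 1/10} ≤ K}`.  `vol E = |α|⁻¹ vol(αE) ≤ |α'|·100(|α|+1)²2^{-K} ≤ 100T³2^{-K}`
(`|αα'| ≥ 1`).  `∑_{K ≥ 20 log T} 2^{-K} ≤ 2·T^{-20 log 2} ≤ 2T^{-13}` and `∑_{(m,n)} T^{-10} < ∞` because
`(1+|m|)(1+|n|) ≤ T²`.  By Borel-Cantelli (`measure_limsup_cofinite_eq_zero`) almost every `ε ∈ [0,1]` is in only finitely many of the sets `E_{m,n,K}`.
For such an `ε` let `C ≥ 1` be so large that `K ≤ C` for all the exceptional `K` (so `K/100 ≤ C ≤ 2C log T`): NR holds with the constant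
`2C + 1`: for `K < 20 log T` the left-hand side is `≤ 0`; for the non exceptional `K ≥ 20 log T` the count is `> K/100`. -/
def S_NRX : Prop := ∀ δ : ℝ, 0 < δ → ∃ ε : ℝ, 0 < ε ∧ ε < δ ∧ NR ε

end Pool.Agent.Helper24.AB
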